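import Pool.Agent.H58.Nm3

set_option autoImplicit false

namespace Pool.Agent.Results.MP_770ffc_an.Horn

open Pool.Agent.H58.Nm

theorem result : ∀ k : ℕ, 1 ≤ k → ∀ η : ℝ, 0 < η →
    ∃ Ω₁ Ω₂ : Set (ℝ × ℝ), IsLipDomain Ω₁ ∧ IsLipDomain Ω₂ ∧ Ω₁ ⊆ Ω₂ ∧ Convex ℝ Ω₁ ∧
      0 < mu Ω₂ k ∧ mu Ω₁ k / mu Ω₂ k < η :=
  fun k hk _ hη => main k hk hη

end Pool.Agent.Results.MP_770ffc_an.Horn
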